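import Pool.Agent.Helper76.P13.StD
import Pool.Agent.Helper84.P13.D1

/-!
# Project P13 (levels `13^n`), lower bound: modules STA and LWD

Adapted from `Helper55/TK7/M_Sta.lean` (levels `3*7^n`).
-/

set_option autoImplicit false

namespace Pool.Agent.Helper55.P13L

open Pool.Agent.Helper76.P13D Pool.Agent.Helper84.P13 Pool.Agent.Helper28.P13
open Pool.Agent.Helper10.P13 (pj pj13)

private theorem om8 : ((om12 8 : ℤ) : ZMod 13) = 9 := by
  have h : om12 8 = 22 := rfl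
  rw [h]
  decide

private theorem om6' : ((om12 6 : ℤ) : ZMod 13) = -1 := by
  have h : om12 6 = -1 := rfl
  rw [h]
  decide

theorem hSta : TSta := by
  intro r s e E hE h0 h6
  obtain ⟨-, -, -, -, hmono, -⟩ := low0 r s
  obtain ⟨hp0, hsum, -, hW, -⟩ := pj13 r s
  have o8 : om12 8 = 22 := rfl
  have o6 : om12 6 = -1 := rfl
  obtain ⟨-, hρ⟩ := lw1 r s 4 (-1) 1 (-3) (by norm_num) (by norm_num)
  obtain ⟨hρ1, -⟩ := hρ 8 (by rw [o8]; norm_num)
  obtain ⟨-, hβ⟩ := lw1 r s 5 (-2) 1 (-5) (by norm_num) (by norm_num)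
  obtain ⟨hβ1, -⟩ := hβ 6 (by rw [o6]; norm_num)
  have hP : ∀ c : ℕ, pj c E ∈ Wd13 e := fun c => by
    have := hp0 c e E hE
    rwa [sub_zero] at this
  have hK : ∀ c : ℕ, op13 4 (-1) 1 (-3) (pj c E) - (9 : ZMod 13) ^ c • pj c E ∈ Wd13 (e - 1) := fun c => by
    have a1 := hρ1 e (pj c E) (hP c)
    have a2 := hmono (e - 15) (e - 1) (by linarith) ((hW c 8).2 e E hE)
    have a3 := Submodule.add_mem _ a1 a2
    rw [LinearMap.sub_apply, LinearMap.sub_apply, Module.End.mul_apply, LinearMap.smul_apply] at a3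
    have hc : ((((om12 8) ^ c : ℤ)) : ZMod 13) = (9 : ZMod 13) ^ c := by
      rw [Int.cast_pow, om8]
    rw [hc] at a3
    have e1 : op13 4 (-1) 1 (-3) (pj c E) - oW 8 (pj c E) + (oW 8 (pj c E) - (9 : ZMod 13) ^ c • pj c E)
        = op13 4 (-1) 1 (-3) (pj c E) - (9 : ZMod 13) ^ c • pj c E := by abel
    rw [e1] at a3
    exact a3
  have hB : ∀ c : ℕ, op13 5 (-2) 1 (-5) (pj c E) - (-1 : ZMod 13) ^ c • pj c E ∈ Wd13 (e - 1) := fun c => by
    have a1 := hβ1 e (pj c E) (hP c)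
    have a2 := hmono (e - 15) (e - 1) (by linarith) ((hW c 6).2 e E hE)
    have a3 := Submodule.add_mem _ a1 a2
    rw [LinearMap.sub_apply, LinearMap.sub_apply, Module.End.mul_apply, LinearMap.smul_apply] at a3
    have hc : ((((om12 6) ^ c : ℤ)) : ZMod 13) = (-1 : ZMod 13) ^ c := by
      rw [Int.cast_pow, om6']
    rw [hc] at a3
    have e1 : op13 5 (-2) 1 (-5) (pj c E) - oW 6 (pj c E) + (oW 6 (pj c E) - (-1 : ZMod 13) ^ c • pj c E)
        = op13 5 (-2) 1 (-5) (pj c E) - (-1 : ZMod 13) ^ c • pj c E := by abel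
    rw [e1] at a3
    exact a3
  have hEs : E = pj 0 E + pj 1 E + pj 2 E + pj 3 E + pj 4 E + pj 5 E + pj 6 E + pj 7 E + pj 8 E + pj 9 E +
      pj 10 E + pj 11 E := by
    have h := congrArg (fun O : Module.End (ZMod 13) (Fn13 (13 ^ r) (13 ^ s)) => O E) hsum
    simp only [Finset.sum_range_succ, Finset.sum_range_zero, zero_add, LinearMap.add_apply, Module.End.one_apply] at h
    exact h.symm
  refine ⟨(6 : ZMod 13) • pj 2 E + (8 : ZMod 13) • pj 4 E + (6 : ZMod 13) • pj 8 E + (8 : ZMod 13) • pj 10 E,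
    (7 : ZMod 13) • pj 1 E + (7 : ZMod 13) • pj 3 E + (7 : ZMod 13) • pj 5 E + (7 : ZMod 13) • pj 7 E +
    (7 : ZMod 13) • pj 9 E + (7 : ZMod 13) • pj 11 E, ?_, ?_, ?_⟩
  · exact Submodule.add_mem _ (Submodule.add_mem _ (Submodule.add_mem _
      (Submodule.smul_mem _ _ (hP 2)) (Submodule.smul_mem _ _ (hP 4))) (Submodule.smul_mem _ _ (hP 8)))
      (Submodule.smul_mem _ _ (hP 10))
  · exact Submodule.add_mem _ (Submodule.add_mem _ (Submodule.add_mem _ (Submodule.add_mem _ (Submodule.add_mem _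
      (Submodule.smul_mem _ _ (hP 1)) (Submodule.smul_mem _ _ (hP 3))) (Submodule.smul_mem _ _ (hP 5)))
      (Submodule.smul_mem _ _ (hP 7))) (Submodule.smul_mem _ _ (hP 9))) (Submodule.smul_mem _ _ (hP 11))
  · have key : E - (((6 : ZMod 13) • pj 2 E + (8 : ZMod 13) • pj 4 E + (6 : ZMod 13) • pj 8 E +
          (8 : ZMod 13) • pj 10 E) - op13 4 (-1) 1 (-3) ((6 : ZMod 13) • pj 2 E + (8 : ZMod 13) • pj 4 E +
          (6 : ZMod 13) • pj 8 E + (8 : ZMod 13) • pj 10 E)) -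
        (((7 : ZMod 13) • pj 1 E + (7 : ZMod 13) • pj 3 E + (7 : ZMod 13) • pj 5 E + (7 : ZMod 13) • pj 7 E +
          (7 : ZMod 13) • pj 9 E + (7 : ZMod 13) • pj 11 E) -
          op13 5 (-2) 1 (-5) ((7 : ZMod 13) • pj 1 E + (7 : ZMod 13) • pj 3 E + (7 : ZMod 13) • pj 5 E +
            (7 : ZMod 13) • pj 7 E + (7 : ZMod 13) • pj 9 E + (7 : ZMod 13) • pj 11 E)) =
        pj 0 E + pj 6 E + (6 : ZMod 13) • (op13 4 (-1) 1 (-3) (pj 2 E) - (9 : ZMod 13) ^ 2 • pj 2 E)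
          + (8 : ZMod 13) • (op13 4 (-1) 1 (-3) (pj 4 E) - (9 : ZMod 13) ^ 4 • pj 4 E)
          + (6 : ZMod 13) • (op13 4 (-1) 1 (-3) (pj 8 E) - (9 : ZMod 13) ^ 8 • pj 8 E)
          + (8 : ZMod 13) • (op13 4 (-1) 1 (-3) (pj 10 E) - (9 : ZMod 13) ^ 10 • pj 10 E)
          + (7 : ZMod 13) • (op13 5 (-2) 1 (-5) (pj 1 E) - (-1 : ZMod 13) ^ 1 • pj 1 E)
          + (7 : ZMod 13) • (op13 5 (-2) 1 (-5) (pj 3 E) - (-1 : ZMod 13) ^ 3 • pj 3 E)
          + (7 : ZMod 13) • (op13 5 (-2) 1 (-5) (pj 5 E) - (-1 : ZMod 13) ^ 5 • pj 5 E)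
          + (7 : ZMod 13) • (op13 5 (-2) 1 (-5) (pj 7 E) - (-1 : ZMod 13) ^ 7 • pj 7 E)
          + (7 : ZMod 13) • (op13 5 (-2) 1 (-5) (pj 9 E) - (-1 : ZMod 13) ^ 9 • pj 9 E)
          + (7 : ZMod 13) • (op13 5 (-2) 1 (-5) (pj 11 E) - (-1 : ZMod 13) ^ 11 • pj 11 E) := by
      simp only [map_add, map_smul]
      generalize hA2 : op13 4 (-1) 1 (-3) (pj 2 E) = A2
      generalize hA4 : op13 4 (-1) 1 (-3) (pj 4 E) = A4
      generalize hA8 : op13 4 (-1) 1 (-3) (pj 8 E) = A8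
      generalize hA10 : op13 4 (-1) 1 (-3) (pj 10 E) = A10
      generalize hA1 : op13 5 (-2) 1 (-5) (pj 1 E) = A1
      generalize hA3 : op13 5 (-2) 1 (-5) (pj 3 E) = A3
      generalize hA5 : op13 5 (-2) 1 (-5) (pj 5 E) = A5
      generalize hA7 : op13 5 (-2) 1 (-5) (pj 7 E) = A7
      generalize hA9 : op13 5 (-2) 1 (-5) (pj 9 E) = A9
      generalize hA11 : op13 5 (-2) 1 (-5) (pj 11 E) = A11
      clear hA1 hA2 hA3 hA4 hA5 hA7 hA8 hA9 hA10 hA11 hK hB hP h0 h6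
      generalize pj 0 E = P0 at hEs ⊢
      generalize pj 1 E = P1 at hEs ⊢
      generalize pj 2 E = P2 at hEs ⊢
      generalize pj 3 E = P3 at hEs ⊢
      generalize pj 4 E = P4 at hEs ⊢
      generalize pj 5 E = P5 at hEs ⊢
      generalize pj 6 E = P6 at hEs ⊢
      generalize pj 7 E = P7 at hEs ⊢
      generalize pj 8 E = P8 at hEs ⊢
      generalize pj 9 E = P9 at hEs ⊢
      generalize pj 10 E = P10 at hEs ⊢
      generalize pj 11 E = P11 at hEs ⊢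
      rw [hEs]
      have c2 : (9 : ZMod 13) ^ 2 = 3 := by decide
      have c4 : (9 : ZMod 13) ^ 4 = 9 := by decide
      have c8 : (9 : ZMod 13) ^ 8 = 3 := by decide
      have c10 : (9 : ZMod 13) ^ 10 = 9 := by decide
      have d1 : (-1 : ZMod 13) ^ 1 = -1 := by decide
      have d3 : (-1 : ZMod 13) ^ 3 = -1 := by decide
      have d5 : (-1 : ZMod 13) ^ 5 = -1 := by decide
      have d7 : (-1 : ZMod 13) ^ 7 = -1 := by decide
      have d9 : (-1 : ZMod 13) ^ 9 = -1 := by decide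
      have d11 : (-1 : ZMod 13) ^ 11 = -1 := by decide
      rw [c2, c4, c8, c10, d1, d3, d5, d7, d9, d11]
      funext x y
      simp only [Pi.add_apply, Pi.sub_apply, Pi.smul_apply, smul_eq_mul]
      have h13 : (13 : ZMod 13) = 0 := by decide
      linear_combination (P2 x y + 5 * P4 x y + P8 x y + 5 * P10 x y - P1 x y - P3 x y - P5 x y - P7 x y -
        P9 x y - P11 x y) * h13
    rw [key]
    exact Submodule.add_mem _ (Submodule.add_mem _ (Submodule.add_mem _ (Submodule.add_mem _ (Submodule.add_mem _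
      (Submodule.add_mem _ (Submodule.add_mem _ (Submodule.add_mem _ (Submodule.add_mem _ (Submodule.add_mem _
      (Submodule.add_mem _ h0 h6)
      (Submodule.smul_mem _ _ (hK 2))) (Submodule.smul_mem _ _ (hK 4))) (Submodule.smul_mem _ _ (hK 8)))
      (Submodule.smul_mem _ _ (hK 10))) (Submodule.smul_mem _ _ (hB 1))) (Submodule.smul_mem _ _ (hB 3)))
      (Submodule.smul_mem _ _ (hB 5))) (Submodule.smul_mem _ _ (hB 7))) (Submodule.smul_mem _ _ (hB 9)))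
      (Submodule.smul_mem _ _ (hB 11))

theorem hLwd : TLwd := by
  intro r s d u hu
  have w0 : (oW 0 : Module.End (ZMod 13) (Fn13 (13 ^ r) (13 ^ s))) = 1 := by
    apply LinearMap.ext
    intro G
    exact (trm (ZMod 13) r s G).2.1
  have om0 : om12 0 = 1 := rfl
  have om4' : om12 4 = -23 := rfl
  have om6'' : om12 6 = -1 := rfl
  have om8' : om12 8 = 22 := rfl
  obtain ⟨-, hT⟩ := (lw1 r s 1 1 0 1 (by norm_num) (by norm_num)).2 0 (by rw [om0]; norm_num)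
  obtain ⟨-, hρ⟩ := (lw1 r s 4 (-1) 1 (-3) (by norm_num) (by norm_num)).2 8 (by rw [om8']; norm_num)
  obtain ⟨-, hβ⟩ := (lw1 r s 5 (-2) 1 (-5) (by norm_num) (by norm_num)).2 6 (by rw [om6'']; norm_num)
  obtain ⟨-, hα⟩ := (lw1 r s 8 (-5) 1 (-8) (by norm_num) (by norm_num)).2 6 (by rw [om6'']; norm_num)
  obtain ⟨-, hτ⟩ := (lw1 r s 10 (-7) 1 (-9) (by norm_num) (by norm_num)).2 4 (by rw [om4']; norm_num)
  have c1 : (((1 * 1 ^ 11 : ℤ)) : ZMod 13) = 1 := by decide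
  have c2 : (((0 * 1 ^ 11 * om12 0 ^ 11 : ℤ)) : ZMod 13) = 0 := by decide
  have c3 : (((-1 * 4 ^ 11 : ℤ)) : ZMod 13) = 3 := by decide
  have c4 : (((1 * 4 ^ 11 * om12 8 ^ 11 : ℤ)) : ZMod 13) = 4 := by decide
  have c5 : (((-2 * 5 ^ 11 : ℤ)) : ZMod 13) = 10 := by decide
  have c6 : (((1 * 5 ^ 11 * om12 6 ^ 11 : ℤ)) : ZMod 13) = 5 := by decide
  have c7 : (((-5 * 8 ^ 11 : ℤ)) : ZMod 13) = 1 := by decide
  have c8 : (((1 * 8 ^ 11 * om12 6 ^ 11 : ℤ)) : ZMod 13) = 8 := by decide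
  have c9 : (((-7 * 10 ^ 11 : ℤ)) : ZMod 13) = 11 := by decide
  have c10 : (((1 * 10 ^ 11 * om12 4 ^ 11 : ℤ)) : ZMod 13) = 10 := by decide
  rw [c1, c2, w0] at hT
  rw [c3, c4] at hρ
  rw [c5, c6] at hβ
  rw [c7, c8] at hα
  rw [c9, c10] at hτ
  have a0 := hT d (u 0) (hu 0)
  have a1 := hρ d (u 1) (hu 1)
  have a2 := hβ d (u 2) (hu 2)
  have a3 := hα d (u 3) (hu 3)
  have a4 := hτ d (u 4) (hu 4)
  have a5 := Submodule.add_mem _ (Submodule.add_mem _ (Submodule.add_mem _ (Submodule.sub_mem _ a1 a0) a2) a3) a4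
  convert a5 using 1
  simp only [LinearMap.sub_apply, LinearMap.add_apply, Module.End.mul_apply, Module.End.one_apply,
    LinearMap.smul_apply, one_smul, one_mul, zero_smul, add_zero]
  have e0 : (DfP u : Fn13 (13 ^ r) (13 ^ s)) = u 0 - op13 1 1 0 1 (u 0) - (u 1 - op13 4 (-1) 1 (-3) (u 1)) -
      (u 2 - op13 5 (-2) 1 (-5) (u 2)) - (u 3 - op13 8 (-5) 1 (-8) (u 3)) -
      (u 4 - op13 10 (-7) 1 (-9) (u 4)) := rfl
  rw [e0]
  generalize op13 1 1 0 1 (u 0) = B0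
  generalize op13 4 (-1) 1 (-3) (u 1) = B1
  generalize op13 5 (-2) 1 (-5) (u 2) = B2
  generalize op13 8 (-5) 1 (-8) (u 3) = B3
  generalize op13 10 (-7) 1 (-9) (u 4) = B4
  generalize oW 8 (u 1 + (3 : ZMod 13) • dX (u 1) + (4 : ZMod 13) • dY (u 1)) = C1
  generalize oW 6 (u 2 + (10 : ZMod 13) • dX (u 2) + (5 : ZMod 13) • dY (u 2)) = C2
  generalize oW 6 (u 3 + dX (u 3) + (8 : ZMod 13) • dY (u 3)) = C3
  generalize oW 4 (u 4 + (11 : ZMod 13) • dX (u 4) + (10 : ZMod 13) • dY (u 4)) = C4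
  funext x y
  simp only [Pi.add_apply, Pi.sub_apply]
  ring

end Pool.Agent.Helper55.P13L
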